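import Pool.Agent.L0h79.BSS.Random

/-!
# Machines over the complex numbers which toss coins

The machines over `ℂ`, the code and the size of a polynomial system are defined in
`Pool.Agent.L0h79.BSS.Defs`. A coin tossing machine is a machine over `ℂ` whose guess nodes write a
random bit `0` or `1` (it uses neither conjugation nor order tests). `prob M x t b` is the
probability, over the uniformly random sequences of `t` bits, that `M` has given the answer `b` after
`t` steps on the tape `x`. `quad c` is the system of polynomials of degree at most `2` with the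
coefficients `c`. `mon n d` is any list of the monomials of degree at most `d` in `n` variables.

**Theorem.** Let `ε` be a real number.

(1) Let `ℓ ≥ 50`, `n = 5 ℓ`, and let `M` be a coin tossing machine which answers wrongly with
probability at most `ε` on each system of `n + 1` polynomials of degree at most `2` in `n` variables
(it may depend on `ℓ`). There is a nonzero polynomial `Q` in the coefficients such that every system
`quad c` with `Q(c) ≠ 0` consists of polynomials of degree `2`, has no common zero, and for each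
`t ≤ size ^ (4 / 3) / 10000`, `M` has given the answer yes after `t` steps with probability at most
`ε`, and the answer no with probability at most `ε`. So with probability at least `1 - 2 ε` it has
not halted after `size ^ (4 / 3) / 10000` steps. This holds for all systems outside a proper algebraic
subset of the space of coefficients.

(2) Let `e < 4 / 3`. There is no coin tossing machine which answers wrongly with probability at
most `ε` on every system, and which on every system halts with probability more than `2 ε` within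
`C * size ^ e` steps. In particular (`ε < 1 / 2`) there is no coin tossing machine with error
probability at most `ε` which always halts within `C * size ^ e` steps.
-/

open MvPolynomial Pool.Agent.L0h79.BSS

namespace Pool.Agent.Results.MP_57f271_lc.CoinTossing

/-- `M` is a coin tossing machine which answers wrongly with probability at most `ε` on every
system -/
def ErrsAtMost (mon : ∀ n : ℕ, ℕ → List (Fin n →₀ ℕ)) (M : Machine) (ε : ℝ) : Prop :=
  (∀ v, (M.prog v).standardOrGuess) ∧
  ∀ (n k : ℕ) (f : Fin k → MvPolynomial (Fin n) ℂ) (t : ℕ) (b : Bool),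
    ¬ (HasZero f ↔ b = true) → prob M (tape (encode mon f)) t b ≤ ε

theorem result (mon : ∀ n : ℕ, ℕ → List (Fin n →₀ ℕ)) (hmon : IsMonomialList mon) (ε : ℝ) :
    -- (1)
    (∀ (ℓ : ℕ), 50 ≤ ℓ → ∀ (M : Machine), (∀ v, (M.prog v).standardOrGuess) →
      (∀ (c : Fin (5 * ℓ + 1) × Mon (5 * ℓ) → ℂ) (t : ℕ) (b : Bool),
        ¬ (HasZero (quad c) ↔ b = true) → prob M (tape (encode mon (quad c))) t b ≤ ε) →
      ∃ Q : MvPolynomial (Fin (5 * ℓ + 1) × Mon (5 * ℓ)) ℂ, Q ≠ 0 ∧ ∀ c, eval c Q ≠ 0 →
        (∀ e, (quad c e).totalDegree = 2) ∧ ¬ HasZero (quad c) ∧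
        ∀ (t : ℕ) (b : Bool), (t : ℝ) ≤ (size mon (quad c) : ℝ) ^ (4 / 3 : ℝ) / 10000 →
          prob M (tape (encode mon (quad c))) t b ≤ ε) ∧
    -- (2)
    (∀ (e C : ℝ), e < 4 / 3 → ¬ ∃ M : Machine, ErrsAtMost mon M ε ∧
      ∀ (n k : ℕ) (f : Fin k → MvPolynomial (Fin n) ℂ), ∃ t : ℕ,
        (t : ℝ) ≤ C * (size mon f : ℝ) ^ e ∧
        2 * ε < prob M (tape (encode mon f)) t true + prob M (tape (encode mon f)) t false) := by
  have part1 : ∀ (ℓ : ℕ), 50 ≤ ℓ → ∀ (M : Machine), (∀ v, (M.prog v).standardOrGuess) →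
      (∀ (c : Fin (5 * ℓ + 1) × Mon (5 * ℓ) → ℂ) (t : ℕ) (b : Bool),
        ¬ (HasZero (quad c) ↔ b = true) → prob M (tape (encode mon (quad c))) t b ≤ ε) →
      ∃ Q : MvPolynomial (Fin (5 * ℓ + 1) × Mon (5 * ℓ)) ℂ, Q ≠ 0 ∧ ∀ c, eval c Q ≠ 0 →
        (∀ e, (quad c e).totalDegree = 2) ∧ ¬ HasZero (quad c) ∧
        ∀ (t : ℕ) (b : Bool), (t : ℝ) ≤ (size mon (quad c) : ℝ) ^ (4 / 3 : ℝ) / 10000 →
          prob M (tape (encode mon (quad c))) t b ≤ ε := by
    intro ℓ hℓ M hM herr
    obtain ⟨Q, hQ, h⟩ := random_hard mon hmon ℓ hℓ M hM ε herr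
    refine ⟨Q, hQ, fun c hc => ?_⟩
    obtain ⟨h1, h2, h3⟩ := h c hc
    refine ⟨h1, h2, fun t b ht => h3 t b ?_⟩
    have hsz : size mon (quad c) = sz ℓ := size_of_degree_two mon hmon (by omega) _ h1
    rw [hsz, le_div_iff₀ (by norm_num)] at ht
    linarith
  refine ⟨part1, ?_⟩
  rintro e C he ⟨M, ⟨hM, herr⟩, hT⟩
  have hlim : Filter.Tendsto (fun N : ℕ => ((N : ℝ)) ^ (4 / 3 - e)) Filter.atTop Filter.atTop :=
    (tendsto_rpow_atTop (by linarith)).comp tendsto_natCast_atTop_atTop
  obtain ⟨N₁, hN₁⟩ := (Filter.tendsto_atTop.1 hlim (10000 * C)).exists_forall_of_atTop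
  set ℓ := max 50 N₁ with hℓ
  have h50 : 50 ≤ ℓ := le_max_left _ _
  obtain ⟨Q, hQ, h⟩ := part1 ℓ h50 M hM fun c t b hb => herr _ _ _ t b hb
  obtain ⟨c, hc⟩ : ∃ c, eval c Q ≠ 0 := by
    by_contra hall
    push Not at hall
    exact hQ (MvPolynomial.funext fun x => by rw [hall x, map_zero])
  obtain ⟨h1, -, h3⟩ := h c hc
  obtain ⟨t, ht, hpr⟩ := hT _ _ (quad c)
  have hsz : size mon (quad c) = (5 * ℓ + 1) * (5 * ℓ + 2).choose 2 :=
    size_of_degree_two mon hmon (by omega) _ h1
  have hge : N₁ ≤ size mon (quad c) := by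
    rw [hsz]
    have h4 : 1 ≤ (5 * ℓ + 2).choose 2 := Nat.choose_pos (by omega)
    have h5 : N₁ ≤ ℓ := le_max_right _ _
    nlinarith
  have hge1 : 1 ≤ size mon (quad c) := by
    rw [hsz]
    have h4 : 1 ≤ (5 * ℓ + 2).choose 2 := Nat.choose_pos (by omega)
    nlinarith
  have hpos : (0 : ℝ) < size mon (quad c) := by exact_mod_cast hge1
  have hle : (t : ℝ) ≤ (size mon (quad c) : ℝ) ^ (4 / 3 : ℝ) / 10000 := by
    refine ht.trans ?_
    have h4 := hN₁ (size mon (quad c)) hge
    have h5 : (size mon (quad c) : ℝ) ^ (4 / 3 : ℝ)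
        = (size mon (quad c) : ℝ) ^ (4 / 3 - e) * (size mon (quad c) : ℝ) ^ e := by
      rw [← Real.rpow_add hpos]; congr 1; ring
    have h6 : 0 < (size mon (quad c) : ℝ) ^ e := Real.rpow_pos_of_pos hpos _
    rw [h5, le_div_iff₀ (by norm_num)]
    nlinarith
  have h4 := h3 t true hle
  have h5 := h3 t false hle
  linarith

end Pool.Agent.Results.MP_57f271_lc.CoinTossing
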