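import Pool.Agent.L0h79.BSS.Random

/-!
# Generic instances of Hilbert's Nullstellensatz over the complex numbers are hard

The machines over `ℂ`, their cost, the code and the size of a polynomial system are defined in
`Pool.Agent.L0h79.BSS.Defs`. `Mon n` is the set of the exponents `m` of degree at most `2` in `n`
variables; `quad c` is the system of `k` polynomials `∑ m, c (e, m) z ^ m` (`e < k`) with the
coefficients `c : Fin k × Mon n → ℂ`. We consider systems of `n + 1` polynomials of degree `2` in
`n = 5 ℓ` variables, `ℓ ≥ 50`; their size is the number `(n + 1) (n + 2 choose 2)` of coefficients.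
`mon n d` is any list of the monomials of degree at most `d` in `n` variables.

**Theorem.** (1) *Almost every system is hard.* Let `M` be a (deterministic) machine over `ℂ` which
answers correctly on the systems of `n + 1` polynomials of degree at most `2` in `n = 5 ℓ` variables;
it may depend on `ℓ`. There is a nonzero polynomial `Q` in the coefficients such that every system
`quad c` with `Q(c) ≠ 0` consists of polynomials of degree `2`, has no common zero, and `M` needs
more than `size ^ (4 / 3) / 5000` steps on it. So all systems outside a proper algebraic subset of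
the space of coefficients (in particular, almost all systems in the sense of measure) are hard.

(2) *Certificates.* Let `M` be a machine which may guess complex numbers and may use complex
conjugation and tests `Re z ≥ 0`, and which is sound: if some run on the code of a system ends with
the answer no then the system has no common zero. For every nonzero polynomial `Q` there is an
unsolvable system `quad c` with `Q(c) ≠ 0` such that all runs of `M` with the answer no have cost
more than `size ^ (4 / 3) / 5000` (only multiplications, divisions, guesses and tests are counted).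

(3) *Quantitative form.* There is `r > 0`, which depends only on `ℓ`, with the following property.
Let `M` be as in (2). Take any real perturbation `c` with entries of absolute value at most `r` and
consider the systems `tsys ℓ c q = psys ℓ q + quad c`, where `psys ℓ q` is the explicit family of
systems with `ℓ ^ 3` real parameters `q` (`Pool.Agent.L0h79.BSS.Sys`) and `core τ` the closed cube of
side `1` around the point with the coordinates `2 τ a + 2`. At most a fraction `2 ^ (- ℓ ^ 4 / 2)` of
the `(2 ^ ℓ - 1) ^ (ℓ ^ 3)` cubes contain a point `q` such that the perturbed system has a run of `M`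
with the answer no and with cost at most `size ^ (4 / 3) / 5000`.
-/

open MvPolynomial Pool.Agent.L0h79.BSS

namespace Pool.Agent.Results.MP_57f271_lc.GenericSystems

theorem result (mon : ∀ n : ℕ, ℕ → List (Fin n →₀ ℕ)) (hmon : IsMonomialList mon)
    (ℓ : ℕ) (hℓ : 50 ≤ ℓ) :
    -- (1)
    (∀ M : Machine, Standard M →
      (∀ (c : Fin (5 * ℓ + 1) × Mon (5 * ℓ) → ℂ) (t : ℕ) (b : Bool),
        Answers M (tape (encode mon (quad c))) 0 t b → (HasZero (quad c) ↔ b = true)) →
      ∃ Q : MvPolynomial (Fin (5 * ℓ + 1) × Mon (5 * ℓ)) ℂ, Q ≠ 0 ∧ ∀ c, eval c Q ≠ 0 →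
        (∀ e, (quad c e).totalDegree = 2) ∧ ¬ HasZero (quad c) ∧
        ∀ (t : ℕ) (b : Bool), Answers M (tape (encode mon (quad c))) 0 t b →
          (size mon (quad c) : ℝ) ^ (4 / 3 : ℝ) / 5000 < t) ∧
    -- (2)
    (∀ M : Machine,
      (∀ (n k : ℕ) (f : Fin k → MvPolynomial (Fin n) ℂ) (g : ℕ → ℂ) (t : ℕ),
        Answers M (tape (encode mon f)) g t false → ¬ HasZero f) →
      ∀ Q : MvPolynomial (Fin (5 * ℓ + 1) × Mon (5 * ℓ)) ℂ, Q ≠ 0 →
        ∃ c : Fin (5 * ℓ + 1) × Mon (5 * ℓ) → ℂ, eval c Q ≠ 0 ∧
          (∀ e, (quad c e).totalDegree = 2) ∧ ¬ HasZero (quad c) ∧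
          ∀ (g : ℕ → ℂ) (t : ℕ), Answers M (tape (encode mon (quad c))) g t false →
            (size mon (quad c) : ℝ) ^ (4 / 3 : ℝ) / 5000
              < cost M (tape (encode mon (quad c))) g t) ∧
    -- (3)
    (∃ r : ℝ, 0 < r ∧ ∀ M : Machine,
      (∀ (n k : ℕ) (f : Fin k → MvPolynomial (Fin n) ℂ) (g : ℕ → ℂ) (t : ℕ),
        Answers M (tape (encode mon f)) g t false → ¬ HasZero f) →
      ∀ c : Fin (5 * ℓ + 1) × Mon (5 * ℓ) → ℝ, (∀ j, |c j| ≤ r) →
        (2 : ℝ) ^ ((ℓ : ℝ) ^ 4 / 2) * (Nat.card {τ : Par ℓ → Fin (2 ^ ℓ - 1) //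
          ∃ q ∈ core τ, ∃ g t, Answers M (tape (encode mon (tsys ℓ c q))) g t false ∧
            5000 * (cost M (tape (encode mon (tsys ℓ c q))) g t : ℝ)
              ≤ (size mon (tsys ℓ c q) : ℝ) ^ (4 / 3 : ℝ)} : ℝ) ≤
        (Nat.card (Par ℓ → Fin (2 ^ ℓ - 1)) : ℝ)) := by
  have hsz : ∀ c : Fin (5 * ℓ + 1) × Mon (5 * ℓ) → ℂ, (∀ e, (quad c e).totalDegree = 2) →
      size mon (quad c) = sz ℓ := fun c hc => size_of_degree_two mon hmon (by omega) _ hc
  refine ⟨fun M hM hD => ?_, fun M hM Q hQ => ?_, ?_⟩
  · obtain ⟨Q, hQ, h⟩ := generic_hard mon hmon ℓ hℓ M hM hD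
    refine ⟨Q, hQ, fun c hc => ?_⟩
    obtain ⟨h1, h2, h3⟩ := h c hc
    refine ⟨h1, h2, fun t b ht => ?_⟩
    rw [hsz c h1, div_lt_iff₀ (by norm_num)]
    have := h3 t b ht
    linarith
  · obtain ⟨R, hR0, hR⟩ := exists_resultant (5 * ℓ)
    obtain ⟨D, hD0, hDd, -⟩ := exists_degree_poly (5 * ℓ) (5 * ℓ + 1) (by omega)
    by_contra hcon
    push Not at hcon
    refine no_generic_certificate mon hmon ℓ hℓ M (Q * R) (mul_ne_zero hQ hR0)
      (fun c _ g t h => hM _ _ _ g t h) ?_
    intro c hc hcQ
    rw [map_mul] at hcQ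
    obtain ⟨g, t, h1, h2⟩ := hcon c (left_ne_zero_of_mul hcQ) hc
      fun h => right_ne_zero_of_mul hcQ (hR c h)
    refine ⟨g, t, h1, ?_⟩
    rw [hsz c hc, le_div_iff₀ (by norm_num)] at h2
    linarith
  · obtain ⟨r, hr, -, h⟩ := almost_all_perturbed mon hmon ℓ hℓ
    exact ⟨r, hr, fun M hM c hc => h M c hc fun q g t h' => hM _ _ _ g t h'⟩

end Pool.Agent.Results.MP_57f271_lc.GenericSystems
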