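import Pool.Agent.L0h79.BSS.Eq
import Pool.Agent.L0h79.BSS.Final

/-!
# Deciding Hilbert's Nullstellensatz over the complex numbers takes quadratic time

The machines over `ℂ` (finite graphs of nodes working on a bi-infinite tape), the code and the size
of a polynomial system are defined in `Pool.Agent.L0h79.BSS.Defs`; `Within M W` says that all
positions on the tape used by the nodes of `M` are between `-W` and `W` (every machine satisfies this
for some `W`, see (5)). `mon n d` is any list of the monomials of degree at most `d` in `n` variables.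

**Theorem.** (1) *Certificates of unsolvability.* Let `n ≥ 20`, `3 ≤ k ≤ n + 1`, `W ≥ 1` and
`4 W ≤ (n + 2 choose 2)`. Let `M` be a machine over `ℂ`, maybe nondeterministic (it may guess complex
numbers), which uses only the positions from `-W` to `W` and which says no only on systems without
common zero; it may depend on `n` and `k`, and the number of its nodes and its constants are
arbitrary. Then there is a system `f` of `k` polynomials of degree `2` in `n` variables, without
common zero, such that every run of `M` with the answer no on the code of `f` has at least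
`N ^ 2 / (600 W)` steps, where `N = k (n + 2 choose 2)` is the size of `f`.

(2) *An explicit family.* For `m, l, r ≥ 1` and lists `a`, `b` of coefficients of `l` quadratic
polynomials `P_j`, `Q_j` in `m` variables `z`, the system `esys m l r a b` consists of the
`2 l + r` equations `u_j = P_j(z)`, `∑ y_j (u_j - w_j) = 1` (`r` times), `w_j = Q_j(z)` in the
`m + 3 l` variables `z, u, w, y`; it has a common zero if and only if `a ≠ b`. If `M` is as above and
`a` is *any* tuple which is algebraically independent over the field generated by the constants of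
`M`, then every run of `M` with the answer no on `esys m l r a a` has at least
`(r (m + 3 l + 2 choose 2) - 2 W) l (m + 2 choose 2) / (2 W)` steps.

(3) *Deterministic machines.* If a machine over `ℂ` (with the positions from `-W` to `W`) answers
correctly on all systems of `k` polynomials in `n` variables (`n`, `k`, `W` as in (1)), then on some
system of `k` polynomials of degree `2` in `n` variables it takes at least `N ^ 2 / (600 W)` steps.

(4) No machine over `ℂ` decides `HN/ℂ` within `C * size ^ e` steps if `e < 2`.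

(5) Every machine `M` satisfies `Within M W` for some `W ≥ 1`.
-/

open MvPolynomial Pool.Agent.L0h79.BSS

namespace Pool.Agent.Results.MP_57f271_lc.QuadraticLowerBound

/-- the numerical estimate -/
lemma numeric {n k l r m W t L Lm : ℕ} (hn : 20 ≤ n) (hk3 : 3 ≤ k) (hl : l = (k + 5) / 6)
    (hkn : k ≤ n + 1) (hr : k = l + r + l) (hm : n = m + 3 * l) (hL : L = (n + 2).choose 2)
    (hLm : Lm = (m + 2).choose 2) (hW : 4 * W ≤ L)
    (h : ((r * L : ℤ) - 2 * W) * (l * Lm : ℕ) ≤ 2 * W * t) : (k * L) ^ 2 ≤ 600 * W * t := by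
  have e1 : 2 * L = (n + 2) * (n + 1) := by
    rw [hL, Nat.choose_two_right, Nat.mul_div_cancel' (Nat.even_mul_pred_self _).two_dvd]
    rfl
  have e2 : 2 * Lm = (m + 2) * (m + 1) := by
    rw [hLm, Nat.choose_two_right, Nat.mul_div_cancel' (Nat.even_mul_pred_self _).two_dvd]
    rfl
  have hmn : n ≤ 2 * m + 6 := by omega
  have hr3 : k ≤ 3 * r := by omega
  have hl6 : k ≤ 6 * l := by omega
  have hr1 : 1 ≤ r := by omega
  -- `L ≤ 7 Lm`
  have e3 : L ≤ 7 * Lm := by
    have : (n + 2) * (n + 1) ≤ 7 * ((m + 2) * (m + 1)) := by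
      have h1 : n + 2 ≤ 2 * m + 8 := by omega
      have h2 : n + 1 ≤ 2 * m + 7 := by omega
      have h3 : 7 ≤ m := by omega
      calc (n + 2) * (n + 1) ≤ (2 * m + 8) * (2 * m + 7) := Nat.mul_le_mul h1 h2
        _ ≤ 7 * ((m + 2) * (m + 1)) := by nlinarith
    omega
  have h' : (r * L : ℤ) * (l * Lm) ≤ 4 * W * t := by
    have hWr : (4 * W : ℤ) ≤ r * L := by
      have : 4 * W ≤ r * L := hW.trans (Nat.le_mul_of_pos_left _ hr1)
      exact_mod_cast this
    push_cast at h
    have h0 : (0 : ℤ) ≤ l * Lm := by positivity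
    nlinarith
  have h'' : (r * L) * (l * Lm) ≤ 4 * W * t := by exact_mod_cast h'
  calc (k * L) ^ 2 = (k * k) * (L * L) := by ring
    _ ≤ ((3 * r) * (6 * l)) * (L * (7 * Lm)) :=
        Nat.mul_le_mul (Nat.mul_le_mul hr3 hl6) (Nat.mul_le_mul le_rfl e3)
    _ = 126 * ((r * L) * (l * Lm)) := by ring
    _ ≤ 126 * (4 * W * t) := Nat.mul_le_mul_left _ h''
    _ ≤ 600 * W * t := by nlinarith [Nat.zero_le (W * t)]

theorem result (mon : ∀ n : ℕ, ℕ → List (Fin n →₀ ℕ)) (hmon : IsMonomialList mon) :
    -- (1)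
    (∀ (n k W : ℕ), 20 ≤ n → 3 ≤ k → k ≤ n + 1 → 1 ≤ W → 4 * W ≤ (n + 2).choose 2 →
      ∀ M : Machine, (∀ v, (M.prog v).standardOrGuess) → Within M W →
        (∀ (f : Fin k → MvPolynomial (Fin n) ℂ) (g : ℕ → ℂ) (t : ℕ),
          Answers M (tape (encode mon f)) g t false → ¬ HasZero f) →
        ∃ f : Fin k → MvPolynomial (Fin n) ℂ, (∀ e, (f e).totalDegree = 2) ∧ ¬ HasZero f ∧
          size mon f = k * (n + 2).choose 2 ∧
          ∀ (g : ℕ → ℂ) (t : ℕ), Answers M (tape (encode mon f)) g t false →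
            (size mon f) ^ 2 ≤ 600 * W * t) ∧
    -- (2)
    (∀ (m l r : ℕ), 0 < m → 0 < l → 0 < r →
      (∀ a b : Fin l × Mon m → ℂ, HasZero (esys m l r a b) ↔ a ≠ b) ∧
      ∀ (W : ℕ) (M : Machine), (∀ v, (M.prog v).standardOrGuess) → Within M W →
        (∀ (f : Fin (l + r + l) → MvPolynomial (Fin (m + 3 * l)) ℂ) (g : ℕ → ℂ) (t : ℕ),
          Answers M (tape (encode mon f)) g t false → ¬ HasZero f) →
        ∀ a : Fin l × Mon m → ℂ, AlgebraicIndependent (Subfield.closure (constants M)) a →
          (∀ e, (esys m l r a a e).totalDegree = 2) ∧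
          ∀ (g : ℕ → ℂ) (t : ℕ), Answers M (tape (encode mon (esys m l r a a))) g t false →
            ((r * (m + 3 * l + 2).choose 2 : ℤ) - 2 * W) * (l * (m + 2).choose 2 : ℕ)
              ≤ 2 * W * t) ∧
    -- (3)
    (∀ (n k W : ℕ), 20 ≤ n → 3 ≤ k → k ≤ n + 1 → 1 ≤ W → 4 * W ≤ (n + 2).choose 2 →
      ∀ M : Machine, Standard M → Within M W →
        (∀ (f : Fin k → MvPolynomial (Fin n) ℂ) (t : ℕ) (b : Bool),
          Answers M (tape (encode mon f)) 0 t b → (HasZero f ↔ b = true)) →
        ∃ f : Fin k → MvPolynomial (Fin n) ℂ, (∀ e, (f e).totalDegree = 2) ∧ ¬ HasZero f ∧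
          size mon f = k * (n + 2).choose 2 ∧
          ∀ (t : ℕ) (b : Bool), Answers M (tape (encode mon f)) 0 t b →
            (size mon f) ^ 2 ≤ 600 * W * t) ∧
    -- (4)
    (∀ (e C : ℝ), e < 2 → ¬ ∃ M : Machine, Standard M ∧ DecidesHN mon M ∧
      ∀ (n k : ℕ) (f : Fin k → MvPolynomial (Fin n) ℂ), ∃ (t : ℕ) (b : Bool),
        Answers M (tape (encode mon f)) 0 t b ∧ (t : ℝ) ≤ C * (size mon f : ℝ) ^ e) ∧
    -- (5)
    (∀ M : Machine, ∃ W : ℕ, 1 ≤ W ∧ Within M W) := by
  have part1 : ∀ (n k W : ℕ), 20 ≤ n → 3 ≤ k → k ≤ n + 1 → 1 ≤ W → 4 * W ≤ (n + 2).choose 2 →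
      ∀ M : Machine, (∀ v, (M.prog v).standardOrGuess) → Within M W →
        (∀ (f : Fin k → MvPolynomial (Fin n) ℂ) (g : ℕ → ℂ) (t : ℕ),
          Answers M (tape (encode mon f)) g t false → ¬ HasZero f) →
        ∃ f : Fin k → MvPolynomial (Fin n) ℂ, (∀ e, (f e).totalDegree = 2) ∧ ¬ HasZero f ∧
          size mon f = k * (n + 2).choose 2 ∧
          ∀ (g : ℕ → ℂ) (t : ℕ), Answers M (tape (encode mon f)) g t false →
            (size mon f) ^ 2 ≤ 600 * W * t := by
    intro n k W hn hk hkn hW hWn M hM hwin hsound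
    obtain ⟨l, hl⟩ : ∃ l, l = (k + 5) / 6 := ⟨_, rfl⟩
    obtain ⟨r, hr⟩ : ∃ r, k = l + r + l := ⟨k - 2 * l, by omega⟩
    obtain ⟨m, hm⟩ : ∃ m, n = m + 3 * l := ⟨n - 3 * l, by omega⟩
    obtain ⟨a, ha⟩ := exists_generic (constants M) (constants_countable M) (Fin l × Mon m)
    have hl0 : 0 < l := by omega
    have hr0 : 0 < r := by omega
    have hm0 : 0 < m := by omega
    subst hm
    have key : ∀ f : Fin (l + r + l) → MvPolynomial (Fin (m + 3 * l)) ℂ,
        (∀ e, (f e).totalDegree = 2) → size mon f = (l + r + l) * (m + 3 * l + 2).choose 2 :=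
      fun f hf => size_of_degree_two mon hmon (by omega) f hf
    subst hr
    obtain ⟨h1, h2, h3⟩ := eq_long mon hmon hm0 hl0 hr0 M hM hwin hsound a ha
    refine ⟨esys m l r a a, h1, h2, key _ h1, fun g t hans => ?_⟩
    rw [key _ h1]
    exact numeric hn hk hl hkn rfl rfl rfl rfl hWn (h3 g t hans)
  have hstd : ∀ M : Machine, Standard M → ∀ v, (M.prog v).standardOrGuess := by
    intro M hM v
    have := hM v
    cases hv : M.prog v <;> rw [hv] at this <;> simp [Node.standard, Node.standardOrGuess] at this ⊢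
  have part3 : ∀ (n k W : ℕ), 20 ≤ n → 3 ≤ k → k ≤ n + 1 → 1 ≤ W → 4 * W ≤ (n + 2).choose 2 →
      ∀ M : Machine, Standard M → Within M W →
        (∀ (f : Fin k → MvPolynomial (Fin n) ℂ) (t : ℕ) (b : Bool),
          Answers M (tape (encode mon f)) 0 t b → (HasZero f ↔ b = true)) →
        ∃ f : Fin k → MvPolynomial (Fin n) ℂ, (∀ e, (f e).totalDegree = 2) ∧ ¬ HasZero f ∧
          size mon f = k * (n + 2).choose 2 ∧
          ∀ (t : ℕ) (b : Bool), Answers M (tape (encode mon f)) 0 t b →
            (size mon f) ^ 2 ≤ 600 * W * t := by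
    intro n k W hn hk hkn hW hWn M hM hwin hD
    obtain ⟨f, h1, h2, h3, h4⟩ := part1 n k W hn hk hkn hW hWn M (hstd M hM) hwin (by
      intro f g t h
      have h' : Answers M (tape (encode mon f)) 0 t false := by
        unfold Answers at h ⊢
        rwa [run_standard M hM _ 0 g]
      rw [hD f t false h']
      simp)
    refine ⟨f, h1, h2, h3, fun t b h => ?_⟩
    have hb : b = false := by
      have h5 := hD f t b h
      cases b
      · rfl
      · exact absurd (h5.2 rfl) h2
    subst hb
    exact h4 0 t h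
  refine ⟨part1, ?_, part3, ?_, exists_within⟩
  · intro m l r hm hl hr
    refine ⟨fun a b => ⟨fun h hab => ?_, fun h => hasZero_of_ne a b h⟩, ?_⟩
    · subst hab
      exact not_hasZero_diag hr a h
    · intro W M hM hwin hsound a ha
      obtain ⟨h1, -, h3⟩ := eq_long mon hmon hm hl hr M hM hwin hsound a ha
      exact ⟨h1, h3⟩
  · rintro e C he ⟨M, hM, hD, hT⟩
    obtain ⟨W, hW1, hW⟩ := exists_within M
    have huniq : ∀ (n k : ℕ) (f : Fin k → MvPolynomial (Fin n) ℂ) (t : ℕ) (b : Bool),
        Answers M (tape (encode mon f)) 0 t b → (HasZero f ↔ b = true) := by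
      intro n k f t b h
      obtain ⟨t', ht'⟩ := hD n k f
      have := answers_unique M _ _ h ht'
      rw [this]
      simp
    have hlim : Filter.Tendsto (fun N : ℕ => ((N : ℝ)) ^ (2 - e)) Filter.atTop Filter.atTop :=
      (tendsto_rpow_atTop (by linarith)).comp tendsto_natCast_atTop_atTop
    obtain ⟨N₁, hN₁⟩ := (Filter.tendsto_atTop.1 hlim (600 * W * C + 1)).exists_forall_of_atTop
    set n := max 20 (max N₁ (4 * W)) with hn
    have hn20 : 20 ≤ n := le_max_left _ _
    have hnN : N₁ ≤ n := (le_max_left _ _).trans (le_max_right _ _)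
    have hnW : 4 * W ≤ n := (le_max_right _ _).trans (le_max_right _ _)
    have hch : n ≤ (n + 2).choose 2 := by
      rw [Nat.choose_two_right]
      have : n * 2 ≤ (n + 2) * (n + 2 - 1) := Nat.mul_le_mul (by omega) (by omega)
      omega
    obtain ⟨f, h1, h2, h3, h4⟩ := part3 n 3 W hn20 le_rfl (by omega) hW1 (hnW.trans hch) M hM hW
      (fun f t b h => huniq n 3 f t b h)
    obtain ⟨t, b, hans, ht⟩ := hT n 3 f
    have h5 := h4 t b hans
    set N := size mon f with hN
    have hNn : n ≤ N := by rw [h3]; omega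
    have hNpos : (0 : ℝ) < N := by exact_mod_cast (show 0 < N by omega)
    have h6 := hN₁ N (hnN.trans hNn)
    have h7 : (N : ℝ) ^ 2 ≤ 600 * W * t := by exact_mod_cast h5
    have hWpos : (0 : ℝ) < W := by exact_mod_cast (show 0 < W by omega)
    have h8 : (N : ℝ) ^ 2 ≤ 600 * W * (C * (N : ℝ) ^ e) := by
      refine h7.trans ?_
      exact mul_le_mul_of_nonneg_left ht (by positivity)
    have h9 : (N : ℝ) ^ (2 : ℝ) = (N : ℝ) ^ (2 - e) * (N : ℝ) ^ e := by
      rw [← Real.rpow_add hNpos]
      congr 1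
      ring
    have h10 : (N : ℝ) ^ (2 : ℝ) = (N : ℝ) ^ 2 := by
      rw [← Real.rpow_natCast]; norm_num
    have h11 : (0 : ℝ) < (N : ℝ) ^ e := Real.rpow_pos_of_pos hNpos e
    have h12 : (600 * W * C + 1) * (N : ℝ) ^ e ≤ 600 * W * (C * (N : ℝ) ^ e) := by
      calc (600 * W * C + 1) * (N : ℝ) ^ e ≤ (N : ℝ) ^ (2 - e) * (N : ℝ) ^ e :=
            mul_le_mul_of_nonneg_right h6 h11.le
        _ = (N : ℝ) ^ 2 := by rw [← h9, h10]
        _ ≤ _ := h8
    nlinarith

end Pool.Agent.Results.MP_57f271_lc.QuadraticLowerBound
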