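import Pool.Agent.L0h79.BSS.Verify

/-!
# A superlinear lower bound for Hilbert's Nullstellensatz over the complex numbers

The machines over `ℂ`, their cost, the code and the size of a polynomial system are defined in
`Pool.Agent.L0h79.BSS.Defs`; the systems `psys ℓ q`, which consist of `5 ℓ + 1` quadratic
polynomials in `5 ℓ` variables, in `Pool.Agent.L0h79.BSS.Sys` and `Pool.Agent.L0h79.BSS.Family`.
`mon n d` is any list of the monomials of degree at most `d` in `n` variables: the bounds hold for
every order in which the coefficients are listed.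

**Theorem.** (1) *Certifying unsolvability is superlinear, for almost all instances.* Let `M` be a
machine over `ℂ`, which may be nondeterministic (it may guess complex numbers) and may use complex
conjugation and tests `Re z ≥ 0`, and which is sound: if some run on the code of a system ends with
the answer no, then the system has no common zero. Let `ℓ ≥ 50`. The `(2 ^ ℓ - 1) ^ (ℓ ^ 3)` boxes
`box τ` are pairwise disjoint open cubes of real parameters. At most a fraction `2 ^ (- ℓ ^ 4 / 2)`
of them contain some parameter `q` such that the system `psys ℓ q`, of size `N`, has a run of `M`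
with the answer no and with cost at most `N ^ (4 / 3) / 5000`; here only multiplications, divisions,
guesses and tests are counted, all linear operations are free.

(2) For the centre of each box, an integral point, the system has no common zero. All systems
`psys ℓ q` consist of polynomials of degree `2`, and have size `(5 ℓ + 1) ((5 ℓ + 2) choose 2)`.

(3) In particular, let `M` be a (standard, deterministic) machine over `ℂ` which decides `HN/ℂ`.
For arbitrarily large `N` there is a system of size `N`, consisting of `n + 1` quadratic polynomials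
in `n` variables, on which `M` needs more than `N ^ (4 / 3) / 5000` steps.

(4) So for no `e < 4 / 3` and no `C` there is a machine over `ℂ` which decides `HN/ℂ` within
`C * size ^ e` steps.

(5) In contrast to (1), *solvability can be certified in linear time*: for all `n` and `k ≥ 1` there
is a nondeterministic machine over `ℂ` which, on the codes of the systems `f` of `k` polynomials of
degree `2` in `n` variables, has a run with the answer yes if and only if `f` has a common zero, and
then it has such a run of at most `6 * size` steps.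
-/

open MvPolynomial Pool.Agent.L0h79.BSS

namespace Pool.Agent.Results.MP_57f271_lc.SuperlinearLowerBound

theorem result (mon : ∀ n : ℕ, ℕ → List (Fin n →₀ ℕ)) (hmon : IsMonomialList mon) :
    -- (1)
    (∀ M : Machine,
      (∀ (n k : ℕ) (f : Fin k → MvPolynomial (Fin n) ℂ) (g : ℕ → ℂ) (t : ℕ),
        Answers M (tape (encode mon f)) g t false → ¬ HasZero f) →
      ∀ ℓ : ℕ, 50 ≤ ℓ →
        (2 : ℝ) ^ ((ℓ : ℝ) ^ 4 / 2) * (Nat.card {τ : Par ℓ → Fin (2 ^ ℓ - 1) //
          ∃ q ∈ box τ, ∃ g t, Answers M (tape (encode mon (psys ℓ q))) g t false ∧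
            5000 * (cost M (tape (encode mon (psys ℓ q))) g t : ℝ)
              ≤ (size mon (psys ℓ q) : ℝ) ^ (4 / 3 : ℝ)} : ℝ) ≤
        (Nat.card (Par ℓ → Fin (2 ^ ℓ - 1)) : ℝ)) ∧
    -- (2)
    (∀ ℓ : ℕ, 0 < ℓ →
      (∀ τ σ : Par ℓ → Fin (2 ^ ℓ - 1), IsOpen (box τ) ∧ (τ ≠ σ → Disjoint (box τ) (box σ))) ∧
      (∀ τ : Par ℓ → Fin (2 ^ ℓ - 1), centre τ ∈ box τ ∧ ¬ HasZero (psys ℓ (centre τ))) ∧
      ∀ q, (∀ i, (psys ℓ q i).totalDegree = 2) ∧
        size mon (psys ℓ q) = (5 * ℓ + 1) * (5 * ℓ + 2).choose 2) ∧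
    -- (3)
    (∀ M : Machine, Standard M → DecidesHN mon M → ∀ N₀ : ℕ,
      ∃ (n : ℕ) (f : Fin (n + 1) → MvPolynomial (Fin n) ℂ), (∀ i, (f i).totalDegree = 2) ∧
        N₀ ≤ size mon f ∧ ∀ (t : ℕ) (b : Bool), Answers M (tape (encode mon f)) 0 t b →
          (size mon f : ℝ) ^ (4 / 3 : ℝ) / 5000 < t) ∧
    -- (4)
    (∀ (e C : ℝ), e < 4 / 3 → ¬ ∃ M : Machine, Standard M ∧ DecidesHN mon M ∧
      ∀ (n k : ℕ) (f : Fin k → MvPolynomial (Fin n) ℂ), ∃ (t : ℕ) (b : Bool),
        Answers M (tape (encode mon f)) 0 t b ∧ (t : ℝ) ≤ C * (size mon f : ℝ) ^ e) ∧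
    -- (5)
    (∀ n k : ℕ, 0 < k → ∃ M : Machine, (∀ v, (M.prog v).standardOrGuess) ∧
      ∀ f : Fin k → MvPolynomial (Fin n) ℂ, (∀ i, (f i).totalDegree = 2) →
        (∀ g t, Answers M (tape (encode mon f)) g t true → HasZero f) ∧
        (HasZero f → ∃ g t, t ≤ 6 * size mon f ∧
          Answers M (tape (encode mon f)) g t true)) := by
  have part3 : ∀ M : Machine, Standard M → DecidesHN mon M → ∀ N₀ : ℕ,
      ∃ (n : ℕ) (f : Fin (n + 1) → MvPolynomial (Fin n) ℂ), (∀ i, (f i).totalDegree = 2) ∧
        N₀ ≤ size mon f ∧ ∀ (t : ℕ) (b : Bool), Answers M (tape (encode mon f)) 0 t b →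
          (size mon f : ℝ) ^ (4 / 3 : ℝ) / 5000 < t := by
    intro M hM hD N₀
    have huniq : ∀ (n k : ℕ) (f : Fin k → MvPolynomial (Fin n) ℂ) (g : ℕ → ℂ) (t : ℕ) (b : Bool),
        Answers M (tape (encode mon f)) g t b → (HasZero f ↔ b = true) := by
      intro n k f g t b h
      obtain ⟨t', ht'⟩ := hD n k f
      have h' : Answers M (tape (encode mon f)) 0 t b := by
        unfold Answers at h ⊢
        rwa [run_standard M hM _ 0 g]
      have := answers_unique M _ _ h' ht'
      rw [this]
      simp
    set ℓ := max 50 N₀ with hℓ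
    have h50 : 50 ≤ ℓ := le_max_left _ _
    have hN₀ : N₀ ≤ ℓ := le_max_right _ _
    obtain ⟨τ, hτ⟩ := exists_hard mon hmon M ℓ h50 (by
      intro q g t h
      rw [huniq _ _ _ g t false h]
      simp)
    refine ⟨5 * ℓ, psys ℓ (centre τ), fun i => totalDegree_sys ℓ (by omega) _ i, ?_, ?_⟩
    · rw [psys, size_sys mon hmon ℓ (by omega)]
      have h1 : 1 ≤ (5 * ℓ + 2).choose 2 := Nat.choose_pos (by omega)
      nlinarith
    · intro t b h
      have hb : b = false := by
        have h1 := huniq _ _ _ 0 t b h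
        have h2 := not_hasZero_centre τ
        rw [h1] at h2
        simpa using h2
      subst hb
      have h1 := hτ (centre τ) (centre_mem τ) 0 t h
      have h2 : (cost M (tape (encode mon (psys ℓ (centre τ)))) 0 t : ℝ) ≤ t := by
        exact_mod_cast cost_le _ _ _ _
      linarith
  refine ⟨?_, ?_, part3, ?_, fun n k hk => linear_certificates mon hmon n k hk⟩
  · intro M hM ℓ hℓ
    exact almost_all mon hmon M ℓ hℓ fun q g t h => hM _ _ _ g t h
  · intro ℓ hℓ
    refine ⟨fun τ σ => ⟨isOpen_box τ, disjoint_box τ σ⟩, fun τ => ⟨centre_mem τ, not_hasZero_centre τ⟩,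
      fun q => ⟨fun i => totalDegree_sys ℓ hℓ _ i, size_sys mon hmon ℓ hℓ _⟩⟩
  · rintro e C he ⟨M, hM, hD, hT⟩
    -- choose the size so large that `C * N ^ e ≤ N ^ (4 / 3) / 5000`
    have hlim : Filter.Tendsto (fun N : ℕ => ((N : ℝ)) ^ (4 / 3 - e)) Filter.atTop Filter.atTop :=
      (tendsto_rpow_atTop (by linarith)).comp tendsto_natCast_atTop_atTop
    obtain ⟨N₁, hN₁⟩ := (Filter.tendsto_atTop.1 hlim (5000 * C)).exists_forall_of_atTop
    obtain ⟨n, f, -, hN, hf⟩ := part3 M hM hD (max N₁ 1)
    obtain ⟨t, b, ht, htC⟩ := hT n (n + 1) f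
    have h1 := hf t b ht
    have h2 := hN₁ (size mon f) (le_trans (le_max_left _ _) hN)
    have hpos : (0 : ℝ) < size mon f := by
      have : 1 ≤ size mon f := le_trans (le_max_right _ _) hN
      exact_mod_cast this
    have h3 : (size mon f : ℝ) ^ (4 / 3 : ℝ)
        = (size mon f : ℝ) ^ (4 / 3 - e) * (size mon f : ℝ) ^ e := by
      rw [← Real.rpow_add hpos]; congr 1; ring
    have h4 : 0 < (size mon f : ℝ) ^ e := Real.rpow_pos_of_pos hpos _
    rw [h3] at h1
    nlinarith

end Pool.Agent.Results.MP_57f271_lc.SuperlinearLowerBound
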